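import Pool.Agent.Lib.MP_d266db_co.Fac
import Pool.Agent.Lib.MP_d266db_co.InqA
import Pool.Agent.Lib.MP_d266db_co.CntP
import Pool.Agent.Lib.MP_d266db_co.CntR
import Pool.Agent.Lib.MP_d266db_co.CntY
import Pool.Agent.Lib.MP_d266db_co.Cut
import Pool.Agent.Lib.MP_d266db_co.RegA
import Pool.Agent.Lib.MP_d266db_co.Small
import Pool.Agent.Lib.MP_d266db_co.Sep
import Pool.Agent.Lib.MP_d266db_co.CloE
import Pool.Agent.Lib.MP_d266db_co.Cap
import Pool.Agent.Lib.MP_d266db_co.Gap
import Pool.Agent.Lib.MP_d266db_co.Min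
import Pool.Agent.Lib.MP_d266db_co.InqB
import Pool.Agent.Lib.MP_d266db_co.Aug
import Pool.Agent.Lib.MP_d266db_co.KST
import Pool.Agent.Lib.MP_d266db_co.Cyc
import Pool.Agent.Lib.MP_d266db_co.Rand
import Pool.Agent.Lib.MP_d266db_co.HalfE
import Pool.Agent.Lib.MP_d266db_co.Half
import Pool.Agent.Lib.MP_d266db_co.Avg
import Pool.Agent.Lib.MP_d266db_co.Sub
import Pool.Agent.Lib.MP_d266db_co.Near
import Pool.Agent.Lib.MP_d266db_co.Lip
import Pool.Agent.Lib.MP_d266db_co.CutD
import Pool.Agent.Lib.MP_d266db_co.H.All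

/-!
# MP_d266db_co: `(1 - o(1)) reg(G)` edge-disjoint Hamilton cycles at semidegree `3n/8`

For every `ε > 0` and all large `n`, every oriented graph on `n` vertices with all in- and out-degrees
at least `3n/8` which has an `r`-regular spanning subdigraph contains at least `(1 - ε) r` pairwise
arc-disjoint Hamilton cycles.
-/

set_option autoImplicit false

namespace Pool.Agent.Results.MP_d266db_co.ApproxHamilton

open Pool.Agent.MPd266db Pool.Agent.MPd266dbH

/-- An oriented graph on the vertices `Fin n` is a finite set `E` of arcs (ordered pairs).  A Hamilton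
cycle is a permutation `σ` of the vertices with only one cycle, with arcs `(v, σ v)`; two of them are
arc-disjoint if they differ at every vertex.

For every `ε > 0` and all large `n`, if `E` is an oriented graph with all in- and out-degrees at least
`3n/8` and `H ⊆ E` has all in- and out-degrees equal to `r`, then `E` contains at least `(1 - ε) r`
pairwise arc-disjoint Hamilton cycles. -/
theorem result :
    ∀ ε : ℝ, 0 < ε → ∃ N : ℕ, ∀ n : ℕ, N ≤ n → ∀ E : Finset (Fin n × Fin n),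
      (∀ u v : Fin n, (u, v) ∈ E → (v, u) ∉ E) →
      (∀ v : Fin n, 3 * n ≤ 8 * (E.filter (fun e => e.1 = v)).card ∧
                    3 * n ≤ 8 * (E.filter (fun e => e.2 = v)).card) →
      ∀ (r : ℕ) (H : Finset (Fin n × Fin n)), H ⊆ E →
        (∀ v : Fin n, (H.filter (fun e => e.1 = v)).card = r ∧
                      (H.filter (fun e => e.2 = v)).card = r) →
        ∃ (t : ℕ) (σ : Fin t → Equiv.Perm (Fin n)), (1 - ε) * r ≤ t ∧
          (∀ j v, (v, σ j v) ∈ E) ∧ (∀ j v w, (σ j).SameCycle v w) ∧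
          ∀ i j, i ≠ j → ∀ v, σ i v ≠ σ j v := by
  have hCut : S_Cut := tCut tInqA tCntP tCntR tCntY
  have hA : S_RegA := tRegA tFac hCut
  have hAug : S_Aug := tAug (tSep tFac) tCloE tCap (tGap tCloE tCap) tMin tInqB
  have hHalf : S_Half := tHalf tKST tCyc tRand (tHalfE tFac)
  have hAvg : S_Avg := tAvg hHalf
  have hNear : S_Near := tNear tSmall tSub
  have hD : S_CutD := tCutD tSmall hAug hAvg hNear tLip
  have hT : S_Thm := tAll
  intro ε hε
  obtain ⟨η, hη, N1, hN1⟩ := hD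
  obtain ⟨N2, hN2⟩ := hT (1 / 8) η (min ε 1) (by norm_num) hη (lt_min hε one_pos)
  refine ⟨max (max N1 N2) 16, fun n hn E hO hS r H hH hr => ?_⟩
  have hn1 : N1 ≤ n := le_trans (le_trans (le_max_left _ _) (le_max_left _ _)) hn
  have hn2 : N2 ≤ n := le_trans (le_trans (le_max_right _ _) (le_max_left _ _)) hn
  have hn3 : 16 ≤ n := le_trans (le_max_right _ _) hn
  -- a degree `r' ≥ r` which is large enough
  obtain ⟨r', hrr, h3, hex⟩ : ∃ r' : ℕ, r ≤ r' ∧ 3 * n < 16 * (r' + 1) ∧ ∃ R ⊆ E, Reg R r' := by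
    by_cases h : 3 * n < 16 * (r + 1)
    · exact ⟨r, le_rfl, h, H, hH, hr⟩
    · obtain ⟨R, hR⟩ := hA n E hO hS (3 * n / 16) (by omega)
      exact ⟨3 * n / 16, by omega, by omega, R, hR⟩
  obtain ⟨R, hRE, hR, hW⟩ := hN1 n hn1 E hO hS r' h3 hex
  have hloop : ∀ e ∈ R, e.1 ≠ e.2 := by
    rintro ⟨u, v⟩ he huv
    simp only at huv
    subst huv
    exact hO u u (hRE he) (hRE he)
  have hbig : (1 / 8 : ℝ) * n ≤ r' := by
    have h4 : n ≤ 8 * r' := by omega
    have h5 : (n : ℝ) ≤ 8 * r' := by exact_mod_cast h4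
    linarith
  obtain ⟨t, σ, h1, h2, h4, h5⟩ := hN2 n hn2 r' R hloop hR hbig hW
  refine ⟨t, σ, le_trans ?_ h1, fun j v => hRE (h2 j v), h4, h5⟩
  have h6 : (r : ℝ) ≤ r' := by exact_mod_cast hrr
  have h7 : (0 : ℝ) ≤ r := Nat.cast_nonneg r
  have h8 : min ε 1 ≤ ε := min_le_left _ _
  have h9 : min ε 1 ≤ 1 := min_le_right _ _
  calc (1 - ε) * r ≤ (1 - min ε 1) * r := by
        apply mul_le_mul_of_nonneg_right _ h7
        linarith
    _ ≤ (1 - min ε 1) * r' := by
        apply mul_le_mul_of_nonneg_left h6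
        linarith

end Pool.Agent.Results.MP_d266db_co.ApproxHamilton
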