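import Pool.Agent.Lib.MP_d266db_co.H.All

/-!
# MP_d266db_co: regular digraphs with dense cuts are almost unions of Hamilton cycles

For all `α, η, ε > 0` and all large `n`, every `r`-regular loopless digraph on `n` vertices with
`r ≥ α n` in which at least `η |W| |V - W|` arcs go from `W` to `V - W`, for every vertex set `W`,
contains at least `(1 - ε) r` pairwise arc-disjoint Hamilton cycles.
-/

set_option autoImplicit false

namespace Pool.Agent.Results.MP_d266db_co.CutDenseHamilton

open Pool.Agent.MPd266db Pool.Agent.MPd266dbH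

/-- A digraph on the vertices `Fin n` is a finite set `R` of arcs (ordered pairs).  A Hamilton cycle is
a permutation `σ` of the vertices with only one cycle, with arcs `(v, σ v)`; two of them are
arc-disjoint if they differ at every vertex.

For all `α, η, ε > 0` and all large `n`, every loopless digraph `R` with all in- and out-degrees equal
to `r ≥ α n`, in which at least `η |W| |V - W|` arcs go from `W` to `V - W` for every set `W`, contains
at least `(1 - ε) r` pairwise arc-disjoint Hamilton cycles. -/
theorem result :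
    ∀ α η ε : ℝ, 0 < α → 0 < η → 0 < ε → ∃ N : ℕ, ∀ n : ℕ, N ≤ n →
      ∀ (r : ℕ) (R : Finset (Fin n × Fin n)), (∀ v : Fin n, (v, v) ∉ R) →
        (∀ v : Fin n, (R.filter (fun e => e.1 = v)).card = r ∧
                      (R.filter (fun e => e.2 = v)).card = r) →
        α * n ≤ r →
        (∀ W : Finset (Fin n),
          η * W.card * Wᶜ.card ≤ (R.filter (fun e => e.1 ∈ W ∧ e.2 ∈ Wᶜ)).card) →
        ∃ (t : ℕ) (σ : Fin t → Equiv.Perm (Fin n)), (1 - ε) * r ≤ t ∧
          (∀ j v, (v, σ j v) ∈ R) ∧ (∀ j v w, (σ j).SameCycle v w) ∧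
          ∀ i j, i ≠ j → ∀ v, σ i v ≠ σ j v := by
  have hT : S_Thm := tAll
  intro α η ε hα hη hε
  obtain ⟨N, hN⟩ := hT α η ε hα hη hε
  refine ⟨N, fun n hn r R hl hR hr hW => ?_⟩
  refine hN n hn r R ?_ hR hr hW
  rintro ⟨u, v⟩ he huv
  simp only at huv
  subst huv
  exact hl u he

end Pool.Agent.Results.MP_d266db_co.CutDenseHamilton
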