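import Pool.Agent.Lib.MP_d266db_co.Fac
import Pool.Agent.Lib.MP_d266db_co.InqA
import Pool.Agent.Lib.MP_d266db_co.CntP
import Pool.Agent.Lib.MP_d266db_co.CntR
import Pool.Agent.Lib.MP_d266db_co.CntY
import Pool.Agent.Lib.MP_d266db_co.Cut
import Pool.Agent.Lib.MP_d266db_co.RegA
import Pool.Agent.Lib.MP_d266db_co.Small
import Pool.Agent.Lib.MP_d266db_co.Sep
import Pool.Agent.Lib.MP_d266db_co.CloE
import Pool.Agent.Lib.MP_d266db_co.Cap
import Pool.Agent.Lib.MP_d266db_co.Gap
import Pool.Agent.Lib.MP_d266db_co.Min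
import Pool.Agent.Lib.MP_d266db_co.InqB
import Pool.Agent.Lib.MP_d266db_co.Aug
import Pool.Agent.Lib.MP_d266db_co.KST
import Pool.Agent.Lib.MP_d266db_co.Cyc
import Pool.Agent.Lib.MP_d266db_co.Rand
import Pool.Agent.Lib.MP_d266db_co.HalfE
import Pool.Agent.Lib.MP_d266db_co.Half
import Pool.Agent.Lib.MP_d266db_co.Avg
import Pool.Agent.Lib.MP_d266db_co.Sub
import Pool.Agent.Lib.MP_d266db_co.Near
import Pool.Agent.Lib.MP_d266db_co.Lip
import Pool.Agent.Lib.MP_d266db_co.CutD
import Pool.Agent.Lib.MP_d266db_co.Arc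

/-!
# MP_d266db_co: cut-dense, `r`-arc-connected regular subdigraphs with `r = reg(G)`

For all large `n` every oriented graph on `n` vertices with all in- and out-degrees at least `3n/8` has
a `reg(G)`-regular spanning subdigraph in which every cut has linear density and which is
`reg(G)`-arc-connected.
-/

set_option autoImplicit false

namespace Pool.Agent.Results.MP_d266db_co.CutDenseRegular

open Pool.Agent.MPd266db

/-- There is `η > 0` such that for all large `n` every oriented graph `E` on `n` vertices with all in-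
and out-degrees at least `3n/8` satisfies: if `r` is the largest number such that `E` has an
`r`-regular spanning subdigraph (or, more generally, `E` has one and `r > 3n/16 - 1`), then `E` has an
`r`-regular spanning subdigraph `R` in which for every vertex set `W` at least `η |W| |V - W|` arcs go
from `W` to `V - W`, and at least `r` arcs if `W` and `V - W` are nonempty. -/
theorem result :
    ∃ η : ℝ, 0 < η ∧ ∃ N : ℕ, ∀ n : ℕ, N ≤ n →
      ∀ E : Finset (Fin n × Fin n),
        (∀ u v : Fin n, (u, v) ∈ E → (v, u) ∉ E) →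
        (∀ v : Fin n, 3 * n ≤ 8 * (E.filter (fun e => e.1 = v)).card ∧
                      3 * n ≤ 8 * (E.filter (fun e => e.2 = v)).card) →
        ∀ r : ℕ,
          (∃ H : Finset (Fin n × Fin n), H ⊆ E ∧
            ∀ v : Fin n, (H.filter (fun e => e.1 = v)).card = r ∧
                         (H.filter (fun e => e.2 = v)).card = r) →
          ((¬ ∃ H : Finset (Fin n × Fin n), H ⊆ E ∧
            ∀ v : Fin n, (H.filter (fun e => e.1 = v)).card = r + 1 ∧
                         (H.filter (fun e => e.2 = v)).card = r + 1) ∨ 3 * n < 16 * (r + 1)) →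
          ∃ R : Finset (Fin n × Fin n), R ⊆ E ∧
            (∀ v : Fin n, (R.filter (fun e => e.1 = v)).card = r ∧
                          (R.filter (fun e => e.2 = v)).card = r) ∧
            (∀ W : Finset (Fin n),
              η * W.card * Wᶜ.card ≤ (R.filter (fun e => e.1 ∈ W ∧ e.2 ∈ Wᶜ)).card) ∧
            ∀ W : Finset (Fin n), W.Nonempty → Wᶜ.Nonempty →
              r ≤ (R.filter (fun e => e.1 ∈ W ∧ e.2 ∈ Wᶜ)).card := by
  have hCut : S_Cut := tCut tInqA tCntP tCntR tCntY
  have hA : S_RegA := tRegA tFac hCut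
  have hCloE : S_CloE := tCloE
  have hGap : S_Gap := tGap tCloE tCap
  have hAug : S_Aug := tAug (tSep tFac) tCloE tCap hGap tMin tInqB
  have hHalf : S_Half := tHalf tKST tCyc tRand (tHalfE tFac)
  have hAvg : S_Avg := tAvg hHalf
  have hNear : S_Near := tNear tSmall tSub
  have hD : S_CutD := tCutD tSmall hAug hAvg hNear tLip
  have hArc : S_Arc := tArc tSmall
  obtain ⟨η, hη, N, hN⟩ := hD
  obtain ⟨N', hN'⟩ := hArc η hη
  refine ⟨η, hη, max N N', fun n hn E h1 h2 r hr hmax => ?_⟩
  have h3 : 3 * n < 16 * (r + 1) := by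
    rcases hmax with h | h
    · by_contra hcon
      apply h
      obtain ⟨H, hH, hR⟩ := hA n E h1 h2 (r + 1) (by omega)
      exact ⟨H, hH, hR⟩
    · exact h
  obtain ⟨H, hH, hHr⟩ := hr
  obtain ⟨R, hRE, hR, hW⟩ := hN n (le_trans (le_max_left _ _) hn) E h1 h2 r h3 ⟨H, hH, hHr⟩
  have hO : Ori R := fun u v huv hvu => h1 u v (hRE huv) (hRE hvu)
  exact ⟨R, hRE, hR, hW, hN' n r R (le_trans (le_max_right _ _) hn) hO hR h3 hW⟩

end Pool.Agent.Results.MP_d266db_co.CutDenseRegular
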