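import Pool.Agent.Lib.MP_d266db_co.Fac
import Pool.Agent.Lib.MP_d266db_co.InqA
import Pool.Agent.Lib.MP_d266db_co.CntP
import Pool.Agent.Lib.MP_d266db_co.CntR
import Pool.Agent.Lib.MP_d266db_co.CntY
import Pool.Agent.Lib.MP_d266db_co.Cut
import Pool.Agent.Lib.MP_d266db_co.RegA
import Pool.Agent.Lib.MP_d266db_co.Ups
import Pool.Agent.Lib.MP_d266db_co.Trn
import Pool.Agent.Lib.MP_d266db_co.ExOri
import Pool.Agent.Lib.MP_d266db_co.ExDeg
import Pool.Agent.Lib.MP_d266db_co.ExCut
import Pool.Agent.Lib.MP_d266db_co.Sharp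
import Pool.Agent.Lib.MP_d266db_co.Ham

/-!
# MP_d266db_co: the smallest value of `reg(G)` at semidegree `3n/8` is `3n/16`

Every oriented graph on `n` vertices with all in- and out-degrees at least `3n/8` has an `r`-regular
spanning subdigraph for every `r ≤ 3n/16`, and the constant `3/16` is best possible.
-/

set_option autoImplicit false

namespace Pool.Agent.Results.MP_d266db_co.MinimumReg

open Pool.Agent.MPd266db

/-- An oriented graph on the vertices `Fin n` is a finite set `E` of arcs (ordered pairs).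

First part: if `E` is oriented and all in- and out-degrees are at least `3n/8`, then for every
`r ≤ 3n/16` some `H ⊆ E` has all in- and out-degrees equal to `r`.

Second part: for every `ε > 0` there are arbitrarily large `n` and such oriented graphs `E` in which
every `r`-regular spanning subdigraph has `r ≤ (3/16 + ε) n`, and in which any `t` permutations
along arcs of `E`, pairwise different at every vertex (for instance `t` pairwise arc-disjoint
Hamilton cycles), satisfy `t ≤ (3/16 + ε) n`. -/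
theorem result :
    (∀ (n : ℕ) (E : Finset (Fin n × Fin n)),
      (∀ u v : Fin n, (u, v) ∈ E → (v, u) ∉ E) →
      (∀ v : Fin n, 3 * n ≤ 8 * (E.filter (fun e => e.1 = v)).card ∧
                    3 * n ≤ 8 * (E.filter (fun e => e.2 = v)).card) →
      ∀ r : ℕ, 16 * r ≤ 3 * n →
        ∃ H : Finset (Fin n × Fin n), H ⊆ E ∧
          ∀ v : Fin n, (H.filter (fun e => e.1 = v)).card = r ∧
                       (H.filter (fun e => e.2 = v)).card = r) ∧
    (∀ ε : ℝ, 0 < ε → ∀ N : ℕ, ∃ n : ℕ, N ≤ n ∧ ∃ E : Finset (Fin n × Fin n),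
      (∀ u v : Fin n, (u, v) ∈ E → (v, u) ∉ E) ∧
      (∀ v : Fin n, 3 * n ≤ 8 * (E.filter (fun e => e.1 = v)).card ∧
                    3 * n ≤ 8 * (E.filter (fun e => e.2 = v)).card) ∧
      (∀ (r : ℕ) (H : Finset (Fin n × Fin n)), H ⊆ E →
        (∀ v : Fin n, (H.filter (fun e => e.1 = v)).card = r ∧
                      (H.filter (fun e => e.2 = v)).card = r) →
        (r : ℝ) ≤ (3 / 16 + ε) * n) ∧
      (∀ (t : ℕ) (σ : Fin t → Equiv.Perm (Fin n)),
        (∀ i : Fin t, ∀ v : Fin n, (v, σ i v) ∈ E) →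
        (∀ i j : Fin t, i ≠ j → ∀ v : Fin n, σ i v ≠ σ j v) →
        (t : ℝ) ≤ (3 / 16 + ε) * n)) := by
  have hCut : S_Cut := tCut tInqA tCntP tCntR tCntY
  have hA : S_RegA := tRegA tFac hCut
  have hS : S_Sharp := tSharp tUps tTrn tExOri tExDeg tExCut
  refine ⟨fun n E h1 h2 r hr => ?_, fun ε hε N => ?_⟩
  · obtain ⟨H, hH, hR⟩ := hA n E h1 h2 r hr
    exact ⟨H, hH, hR⟩
  · obtain ⟨n, hn, E, hO, hD, h⟩ := hS ε hε N
    refine ⟨n, hn, E, hO, hD, fun r H hH hR => h r H hH hR, fun t σ h1 h2 => ?_⟩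
    obtain ⟨H, hH, hR⟩ := tHam n t E σ h1 h2
    exact h t H hH hR

end Pool.Agent.Results.MP_d266db_co.MinimumReg
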